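import Pool.Agent.P.MP_056161_an.Solution
import Pool.Agent.P.MP_056161_an.Boundary

set_option autoImplicit false

open Set Metric
open scoped ContDiff

/- The plane is ℂ with x₁ = re, x₂ = im; the rotation by the angle θ is multiplication
by exp (θ i). -/

namespace Pool.Agent.Results.MP_056161_an.Counterexample

/-- A Lipschitz domain in the plane: open, connected, and near each boundary point, in rotated
coordinates, the region above the graph of a Lipschitz function. -/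
def IsLipschitzDomain (D : Set ℂ) : Prop :=
  IsOpen D ∧ IsConnected D ∧
    ∀ p ∈ frontier D, ∃ ρ : ℝ, 0 < ρ ∧ ∃ (θ : ℝ) (f : ℝ → ℝ) (K : NNReal), LipschitzWith K f ∧
      ∀ z ∈ ball p ρ,
        z ∈ D ↔ f (Complex.exp (θ * Complex.I) * z).re < (Complex.exp (θ * Complex.I) * z).im

/-- In some ball of radius ρ about 0 and in some rotated coordinates, the boundary of D is the
graph of a function f that has the regularity P on the interval (-ρ, ρ). -/
def BoundaryGraphNearZero (D : Set ℂ) (P : (ℝ → ℝ) → Set ℝ → Prop) : Prop :=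
  ∃ ρ : ℝ, 0 < ρ ∧ ∃ (θ : ℝ) (f : ℝ → ℝ), P f (Ioo (-ρ) ρ) ∧
    ∀ z ∈ ball (0 : ℂ) ρ,
      z ∈ frontier D ↔
        (Complex.exp (θ * Complex.I) * z).im = f (Complex.exp (θ * Complex.I) * z).re

open Pool.Agent.P.MP_056161_an

lemma not_two {P : (ℝ → ℝ) → Set ℝ → Prop} (hP : ∀ f I, P f I → ContDiffOn ℝ 2 f I) :
    ¬ BoundaryGraphNearZero DD P := by
  rintro ⟨ρ, hρ, θ, f, hf, hg⟩
  have h2 := hP _ _ hf
  have h0 : (0 : ℝ) ∈ Ioo (-ρ) ρ := ⟨by linarith, hρ⟩
  have h3 : ContDiffOn ℝ 1 (deriv f) (Ioo (-ρ) ρ) :=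
    h2.deriv_of_isOpen isOpen_Ioo (by norm_num)
  obtain ⟨K, t, ht, hK⟩ := (h3.contDiffAt (isOpen_Ioo.mem_nhds h0)).exists_lipschitzOnWith
  obtain ⟨δ, hδ, hsub⟩ := Metric.mem_nhds_iff.mp (Filter.inter_mem ht (isOpen_Ioo.mem_nhds h0))
  rw [Real.ball_eq_Ioo, zero_sub, zero_add] at hsub
  refine not_holder (C := K) hρ hδ one_pos K.2 (Complex.norm_exp_ofReal_mul_I θ)
    (fun z hz => (hg z hz).mp) ?_ ?_
  · intro s hs
    exact (h2.contDiffAt (isOpen_Ioo.mem_nhds (hsub hs).2)).differentiableAt (by norm_num)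
  · intro s hs
    have := hK.dist_le_mul s (hsub hs).1 0 (hsub ⟨by linarith, hδ⟩).1
    simpa [Real.dist_eq] using this

theorem result :
    ∃ (D : Set ℂ) (u : ℂ → ℝ),
      IsLipschitzDomain D ∧ Bornology.IsBounded D ∧ (0 : ℂ) ∈ frontier D ∧
      DifferentiableOn ℝ u (ball 0 2) ∧
      (∃ K : NNReal, LipschitzOnWith K (fderiv ℝ u) (ball 0 2)) ∧
      (∀ᵐ z ∂(MeasureTheory.volume.restrict (ball (0 : ℂ) 2)),
        ContDiffAt ℝ 2 u z ∧ Laplacian.laplacian u z = D.indicator (fun w => w.re) z) ∧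
      (∀ z ∈ ball (0 : ℂ) 2 \ closure D, u z = 0) ∧
      BoundaryGraphNearZero D (fun f I => ContDiffOn ℝ 1 f I) ∧
      (∀ α : ℝ, 0 < α → ¬ BoundaryGraphNearZero D (fun f I => DifferentiableOn ℝ f I ∧
        ∃ C : ℝ, ∀ s ∈ I, ∀ t ∈ I, |deriv f s - deriv f t| ≤ C * |s - t| ^ α)) ∧
      ¬ BoundaryGraphNearZero D (fun f I => ContDiffOn ℝ ∞ f I) ∧
      ¬ BoundaryGraphNearZero D (fun f I => AnalyticOnNhd ℝ f I) := by
  refine ⟨DD, uu, ⟨DD_open, ⟨⟨1, one_mem_DD⟩, DD_convex.isPreconnected⟩,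
    fun p hp => lipschitz_graph hp⟩, DD_bounded, zero_mem_frontier,
    fun z hz => (uu_hasFDerivAt hz).differentiableAt.differentiableWithinAt,
    ⟨12, uu_lipschitz⟩, uu_pde, fun z hz => uu_out fun h => hz.2 (subset_closure h),
    ⟨2, two_pos, Real.pi / 2, psi, psi_contDiffOn, c1_graph⟩, ?_, ?_, ?_⟩
  · rintro α hα ⟨ρ, hρ, θ, f, ⟨hd, C, hC⟩, hg⟩
    refine not_holder (C := max C 0) hρ hρ hα (le_max_right _ _)
      (Complex.norm_exp_ofReal_mul_I θ) (fun z hz => (hg z hz).mp)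
      (fun s hs => hd.differentiableAt (isOpen_Ioo.mem_nhds hs)) ?_
    intro s hs
    have := hC s hs 0 ⟨by linarith, hρ⟩
    rw [sub_zero s] at this
    exact le_trans this (mul_le_mul_of_nonneg_right (le_max_left _ _)
      (Real.rpow_nonneg (abs_nonneg _) _))
  · exact not_two fun f I h => contDiffOn_infty.mp h 2
  · exact not_two fun f I h => h.analyticOn.contDiffOn_of_completeSpace

end Pool.Agent.Results.MP_056161_an.Counterexample
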